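import Pool.Agent.X203.FixPt

namespace Pool.Agent.Results.MP_722163_an.PartiallyBicyclic

open Filter Topology Set Pool.Agent.X203.FixPt

/-- The three generators. -/
inductive Gen
  | a | b | c

/-- The relations `ab = e` and `ac = e`. -/
inductive Rel : FreeMonoid Gen → FreeMonoid Gen → Prop
  | ab : Rel (FreeMonoid.of Gen.a * FreeMonoid.of Gen.b) 1
  | ac : Rel (FreeMonoid.of Gen.a * FreeMonoid.of Gen.c) 1

/-- The partially bicyclic semigroup `S₂ = ⟨e, a, b, c : ab = ac = e⟩`. -/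
abbrev S2 := PresentedMonoid Rel

universe u

section Defs

variable {𝕜 E : Type*} [RCLike 𝕜] [NormedAddCommGroup E] [NormedSpace 𝕜 E]

/-- The norm distance of two elements of the dual space. -/
noncomputable def ndist (x y : WeakDual 𝕜 E) : ℝ :=
  ‖WeakDual.toStrongDual x - WeakDual.toStrongDual y‖

/-- Convexity of a subset of the dual space. -/
def IsConvexSet (C : Set (WeakDual 𝕜 E)) : Prop :=
  ∀ x ∈ C, ∀ y ∈ C, ∀ r s : ℝ, 0 ≤ r → 0 ≤ s → r + s = 1 → (r : 𝕜) • x + (s : 𝕜) • y ∈ C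

/-- Norm separability of a subset of the dual space. -/
def IsNormSeparable (C : Set (WeakDual 𝕜 E)) : Prop :=
  TopologicalSpace.IsSeparable (WeakDual.toStrongDual '' C)

/-- `T` is a weak* continuous norm nonexpansive representation of the (discrete) semigroup `S`
on `C`. -/
structure IsRepresentation {S : Type*} [Semigroup S] {C : Set (WeakDual 𝕜 E)}
    (T : S → C → C) : Prop where
  mul : ∀ (s t : S) (x : C), T (s * t) x = T s (T t x)
  nonexpansive : ∀ (s : S) (x y : C), ndist (T s x : WeakDual 𝕜 E) (T s y) ≤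
    ndist (x : WeakDual 𝕜 E) y
  cont : ∀ s : S, Continuous (T s)

end Defs

/-- The fixed point property `(F_{*s})` of a (discrete) semigroup `S`, for Banach spaces over `𝕜`:
every weak* continuous norm nonexpansive representation of `S` on a nonempty, norm separable,
weak* compact convex subset `C` of a dual Banach space has a common fixed point. -/
def HasFStarS (𝕜 : Type*) [RCLike 𝕜] (S : Type*) [Semigroup S] : Prop :=
  ∀ (E : Type u) [NormedAddCommGroup E] [NormedSpace 𝕜 E] [CompleteSpace E]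
    (C : Set (WeakDual 𝕜 E)), C.Nonempty → IsCompact C → IsConvexSet C → IsNormSeparable C →
    ∀ T : S → C → C, IsRepresentation T → ∃ x, ∀ s, T s x = x

/-- The abstract statement. -/
theorem abstract_fix {Z V : Type*} [TopologicalSpace Z] [CompactSpace Z] [T2Space Z] [Nonempty Z]
    [NormedAddCommGroup V] [NormedSpace ℝ V] (j : Z → V) (hinj : Function.Injective j)
    (hball : ∀ y r, IsClosed {x | ‖j x - j y‖ ≤ r})
    (hnc : ∀ K : Set Z, IsClosed K → ∀ x, (∀ ε > 0, ∃ y ∈ K, ‖j x - j y‖ ≤ ε) → x ∈ K)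
    (hsep : ∃ d : ℕ → Z, ∀ x, ∀ ε > 0, ∃ n, ‖j x - j (d n)‖ ≤ ε)
    (hconv : Convex ℝ (j '' univ)) (T : S2 → Z → Z) (hT : ∀ s t x, T (s * t) x = T s (T t x))
    (hne : ∀ s x y, ‖j (T s x) - j (T s y)‖ ≤ ‖j x - j y‖) (hcont : ∀ s, Continuous (T s)) :
    ∃ x, ∀ s, T s x = x := by
  classical
  -- minimal convex invariant set
  obtain ⟨K, -, hKc, hKne, ⟨hKconv, hKinv⟩, hKmin⟩ := exists_minimal
    (fun K : Set Z => Convex ℝ (j '' K) ∧ ∀ s, ∀ x ∈ K, T s x ∈ K) (by
      rintro c ⟨s₀, hs₀⟩ hc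
      refine ⟨?_, fun s x hx t ht => (hc t ht).2 s x (hx t ht)⟩
      rintro _ ⟨x, hx, rfl⟩ _ ⟨y, hy, rfl⟩ r t hr ht hrt
      obtain ⟨z, hz, hze⟩ := (hc s₀ hs₀).1 ⟨x, hx s₀ hs₀, rfl⟩ ⟨y, hy s₀ hs₀, rfl⟩ hr ht hrt
      refine ⟨z, fun s hs => ?_, hze⟩
      obtain ⟨z', hz', hze'⟩ := (hc s hs).1 ⟨x, hx s hs, rfl⟩ ⟨y, hy s hs, rfl⟩ hr ht hrt
      have : z = z' := hinj (hze.trans hze'.symm)
      rwa [this]) univ isClosed_univ univ_nonempty ⟨hconv, fun _ _ _ => trivial⟩
  let A : S2 := PresentedMonoid.of Rel Gen.a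
  let B : S2 := PresentedMonoid.of Rel Gen.b
  let C : S2 := PresentedMonoid.of Rel Gen.c
  have hAB : A * B = 1 := by
    have := PresentedMonoid.mk_eq_mk_of_rel Rel.ab
    rwa [map_mul, map_one] at this
  have hAC : A * C = 1 := by
    have := PresentedMonoid.mk_eq_mk_of_rel Rel.ac
    rwa [map_mul, map_one] at this
  -- minimal set invariant under `b` and `c`
  obtain ⟨D, hDK, hDc, hDne, ⟨hDB, hDC⟩, hDmin⟩ := exists_minimal
    (fun D : Set Z => (∀ x ∈ D, T B x ∈ D) ∧ ∀ x ∈ D, T C x ∈ D) (by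
      rintro c - hc
      exact ⟨fun x hx t ht => (hc t ht).1 x (hx t ht), fun x hx t ht => (hc t ht).2 x (hx t ht)⟩)
    K hKc hKne ⟨fun x hx => hKinv B x hx, fun x hx => hKinv C x hx⟩
  have hDu : T B '' D ∪ T C '' D = D := by
    apply hDmin
    · rintro x (⟨y, hy, rfl⟩ | ⟨y, hy, rfl⟩)
      · exact hDB y hy
      · exact hDC y hy
    · exact ((hDc.isCompact.image (hcont B)).isClosed).union
        ((hDc.isCompact.image (hcont C)).isClosed)
    · exact (hDne.image _).inl
    · constructor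
      · rintro x (⟨y, hy, rfl⟩ | ⟨y, hy, rfl⟩)
        · exact Or.inl ⟨_, hDB y hy, rfl⟩
        · exact Or.inl ⟨_, hDC y hy, rfl⟩
      · rintro x (⟨y, hy, rfl⟩ | ⟨y, hy, rfl⟩)
        · exact Or.inr ⟨_, hDB y hy, rfl⟩
        · exact Or.inr ⟨_, hDC y hy, rfl⟩
  have hD1 : ∀ x ∈ D, T 1 x = x := by
    intro x hx
    rw [← hDu] at hx
    rcases hx with ⟨y, -, rfl⟩ | ⟨y, -, rfl⟩
    · rw [← hT, one_mul]
    · rw [← hT, one_mul]
  have hisoB : ∀ x ∈ D, ∀ y ∈ D, ‖j (T B x) - j (T B y)‖ = ‖j x - j y‖ := by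
    intro x hx y hy
    apply le_antisymm (hne B x y)
    have := hne A (T B x) (T B y)
    rwa [← hT, ← hT, hAB, hD1 x hx, hD1 y hy] at this
  have hisoC : ∀ x ∈ D, ∀ y ∈ D, ‖j (T C x) - j (T C y)‖ = ‖j x - j y‖ := by
    intro x hx y hy
    apply le_antisymm (hne C x y)
    have := hne A (T C x) (T C y)
    rwa [← hT, ← hT, hAC, hD1 x hx, hD1 y hy] at this
  have htb := totally_bounded j hball hsep (hcont B) (hcont C) D hDc hDne hDB hDC hDmin hisoB
    hisoC
  have hBD : T B '' D = D := onto j hnc (hcont B) D hDc hDB hisoB htb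
  have hCD : T C '' D = D := onto j hnc (hcont C) D hDc hDC hisoC htb
  have h1D : T 1 '' D = D := by
    ext x
    constructor
    · rintro ⟨y, hy, rfl⟩
      rwa [hD1 y hy]
    · intro hx
      exact ⟨x, hx, hD1 x hx⟩
  have hAD : T A '' D = D := by
    have hAB' : ∀ z ∈ D, T A (T B z) = z := by
      intro z hz
      rw [← hT, hAB, hD1 z hz]
    ext x
    constructor
    · rintro ⟨y, hy, rfl⟩
      rw [← hBD] at hy
      obtain ⟨z, hz, rfl⟩ := hy
      rw [hAB' z hz]
      exact hz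
    · intro hx
      exact ⟨T B x, hDB x hx, hAB' x hx⟩
  have hall : ∀ s : S2, T s '' D = D := by
    intro s
    induction s using PresentedMonoid.inductionOn with
    | h w =>
      induction w using FreeMonoid.inductionOn' with
      | one => rw [map_one]; exact h1D
      | of_mul g w ih =>
        rw [map_mul]
        have h2 : T (PresentedMonoid.mk Rel (FreeMonoid.of g)) '' D = D := by
          cases g with
          | a => exact hAD
          | b => exact hBD
          | c => exact hCD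
        have h3 : T (PresentedMonoid.mk Rel (FreeMonoid.of g) * PresentedMonoid.mk Rel w) =
            T (PresentedMonoid.mk Rel (FreeMonoid.of g)) ∘ T (PresentedMonoid.mk Rel w) := by
          ext x; exact hT _ _ _
        rw [h3, image_comp, ih, h2]
  -- `D` is a point
  have hsub : ∀ x ∈ D, ∀ y ∈ D, x = y := by
    intro x hx y hy
    by_contra hxy
    have hpos : 0 < ‖j x - j y‖ := norm_pos_iff.2 (sub_ne_zero.2 fun h => hxy (hinj h))
    obtain ⟨v, hv, r, hvr, a, ha, b, hb, hab⟩ := deMarr j D hx hy hpos htb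
    obtain ⟨z₀, hz₀, rfl⟩ : v ∈ j '' K := convexHull_min (image_mono hDK) hKconv hv
    have hK0 : K ∩ ⋂ y ∈ D, {x | ‖j x - j y‖ ≤ r} = K := by
      apply hKmin _ inter_subset_left
      · exact hKc.inter (isClosed_biInter fun y _ => hball y r)
      · exact ⟨z₀, hz₀, mem_iInter₂.2 fun y hy => hvr y hy⟩
      · constructor
        · rintro _ ⟨p, hp, rfl⟩ _ ⟨q, hq, rfl⟩ α β hα hβ hαβ
          obtain ⟨w, hw, hwe⟩ := hKconv ⟨p, hp.1, rfl⟩ ⟨q, hq.1, rfl⟩ hα hβ hαβ
          refine ⟨w, ⟨hw, mem_iInter₂.2 fun y hy => ?_⟩, hwe⟩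
          have h1 := mem_iInter₂.1 hp.2 y hy
          have h2 := mem_iInter₂.1 hq.2 y hy
          simp only [mem_ofPred_eq] at h1 h2 ⊢
          rw [hwe]
          have h3 : α • j p + β • j q - j y = α • (j p - j y) + β • (j q - j y) := by
            have : j y = (α + β) • j y := by rw [hαβ, one_smul]
            conv_lhs => rw [this]
            rw [add_smul, smul_sub, smul_sub]
            abel
          rw [h3]
          calc ‖α • (j p - j y) + β • (j q - j y)‖
              ≤ ‖α • (j p - j y)‖ + ‖β • (j q - j y)‖ := norm_add_le _ _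
            _ = α * ‖j p - j y‖ + β * ‖j q - j y‖ := by
                rw [norm_smul, norm_smul, Real.norm_eq_abs, Real.norm_eq_abs,
                  abs_of_nonneg hα, abs_of_nonneg hβ]
            _ ≤ α * r + β * r := by gcongr
            _ = r := by rw [← add_mul, hαβ, one_mul]
        · intro s p hp
          refine ⟨hKinv s p hp.1, mem_iInter₂.2 fun y hy => ?_⟩
          rw [← hall s] at hy
          obtain ⟨y', hy', rfl⟩ := hy
          exact (hne s p y').trans (mem_iInter₂.1 hp.2 y' hy')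
    have h4 : a ∈ K ∩ ⋂ y ∈ D, {x | ‖j x - j y‖ ≤ r} := by rw [hK0]; exact hDK ha
    exact absurd (mem_iInter₂.1 h4.2 b hb) (not_le.2 hab)
  obtain ⟨x, hx⟩ := hDne
  refine ⟨x, fun s => ?_⟩
  apply hsub _ _ _ hx
  rw [← hall s]
  exact ⟨x, hx, rfl⟩

/-- The partially bicyclic semigroup has the fixed point property `(F_{*s})`, for real and for
complex Banach spaces. -/
theorem result (𝕜 : Type*) [RCLike 𝕜] : HasFStarS.{u} 𝕜 S2 := by
  intro E _ _ _ C hCne hCc hCconv hCsep T ⟨hT, hTne, hTc⟩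
  let _ : NormedSpace ℝ (StrongDual 𝕜 E) := NormedSpace.restrictScalars ℝ 𝕜 _
  have : CompactSpace C := isCompact_iff_compactSpace.1 hCc
  have : Nonempty C := hCne.to_subtype
  let j : C → StrongDual 𝕜 E := fun x => WeakDual.toStrongDual (x : WeakDual 𝕜 E)
  have hinj : Function.Injective j := by
    intro x y h
    exact Subtype.ext (WeakDual.toStrongDual.injective h)
  apply abstract_fix j hinj
  · intro y r
    have h1 := (WeakDual.isClosed_closedBall (𝕜 := 𝕜) (E := E) (j y) r).preimage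
      (continuous_subtype_val (p := fun x => x ∈ C))
    convert h1 using 1
    ext x
    simp only [mem_ofPred_eq, mem_preimage, Metric.mem_closedBall, dist_eq_norm]
    rfl
  · intro K hK x hx
    have h1 : ∀ n : ℕ, ∃ y ∈ K, ‖j x - j y‖ ≤ 1 / ((n : ℝ) + 1) := fun n => hx _ (by positivity)
    choose y hyK hy using h1
    have h2 : Tendsto (fun n => j (y n)) atTop (𝓝 (j x)) := by
      rw [tendsto_iff_norm_sub_tendsto_zero]
      refine squeeze_zero (fun _ => norm_nonneg _) (fun n => ?_)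
        (tendsto_one_div_add_atTop_nhds_zero_nat (𝕜 := ℝ))
      rw [norm_sub_rev]
      exact hy n
    have h3 : Tendsto (fun n => (y n : WeakDual 𝕜 E)) atTop (𝓝 (x : WeakDual 𝕜 E)) :=
      ((NormedSpace.Dual.toWeakDual_continuous (𝕜 := 𝕜) (E := E)).tendsto (j x)).comp h2
    have h4 : Tendsto y atTop (𝓝 x) := tendsto_subtype_rng.2 h3
    exact hK.mem_of_tendsto h4 (Eventually.of_forall hyK)
  · have := TopologicalSpace.IsSeparable.separableSpace hCsep
    have hne' : Nonempty (WeakDual.toStrongDual '' C : Set (StrongDual 𝕜 E)) :=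
      (hCne.image _).to_subtype
    let q := TopologicalSpace.denseSeq (WeakDual.toStrongDual '' C : Set (StrongDual 𝕜 E))
    have hq : ∀ n, ∃ z : C, j z = q n := by
      intro n
      obtain ⟨z, hz, hze⟩ := (q n).2
      exact ⟨⟨z, hz⟩, hze⟩
    choose d hd using hq
    refine ⟨d, fun x ε hε => ?_⟩
    obtain ⟨n, hn⟩ := (TopologicalSpace.denseRange_denseSeq
      (WeakDual.toStrongDual '' C : Set (StrongDual 𝕜 E))).exists_dist_lt
      ⟨j x, ⟨x, x.2, rfl⟩⟩ hε
    refine ⟨n, ?_⟩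
    rw [hd]
    rw [Subtype.dist_eq, dist_eq_norm] at hn
    exact hn.le
  · rintro _ ⟨x, -, rfl⟩ _ ⟨y, -, rfl⟩ r s hr hs hrs
    refine ⟨⟨(r : 𝕜) • (x : WeakDual 𝕜 E) + (s : 𝕜) • (y : WeakDual 𝕜 E),
      hCconv x x.2 y y.2 r s hr hs hrs⟩, trivial, ?_⟩
    show WeakDual.toStrongDual ((r : 𝕜) • (x : WeakDual 𝕜 E) + (s : 𝕜) • (y : WeakDual 𝕜 E)) = _
    rw [map_add, map_smul, map_smul]
    rfl
  · exact hT
  · exact hTne
  · exact hTc

end Pool.Agent.Results.MP_722163_an.PartiallyBicyclic
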